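import Pool.Agent.H.MP_4f6fd6_an.C

set_option autoImplicit false

namespace Pool.Agent.Results.MP_4f6fd6_an.No

open Pool.Agent.H.MP_4f6fd6_an MeasureTheory ComplexConjugate

theorem result : ∃ b : T → ℂ, IsHinf b ∧ eLpNorm b ⊤ μ = 1 ∧
    (∃ w, IsHinf w ∧ ¬w =ᵐ[μ] 0 ∧ ∀ᵐ x ∂μ, ‖b x + w x‖ ≤ 1 ∧ ‖b x - w x‖ ≤ 1) ∧
    ∃ A B S : Hd →L[ℂ] Hd, IsToep b A ∧ IsToep (fun x => conj (b x)) B ∧ IsRoot S A B ∧
      ∀ C : NNReal, ∃ E : Set T, C * cap S (fun t => 1 ≤ t) E < cap S (fun t => t = 1) E := by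
  obtain ⟨S, hS⟩ := ex_root
  exact ⟨b, isHinf b_bd (b_mem e0_mem), b_top, ⟨w, w_hinf, w_ne, w_le⟩, _, _, S, isToep b_bd,
    isToep b_bd.conj, hS, not_comp hS⟩

end Pool.Agent.Results.MP_4f6fd6_an.No
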